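import Pool.Agent.X205.NQR.Bidual

/-!
# Hamming-Lipschitz maps into the James space of `H`-valued sequences
-/

set_option autoImplicit false
set_option linter.unusedSectionVars false

namespace Pool.Agent.X205.NQR

open Filter Topology Finset
open scoped InnerProductSpace

variable {H : Type} [NormedAddCommGroup H] [InnerProductSpace ℝ H] [CompleteSpace H]

theorem Bd.mono {c c' : ℝ} {D : ℕ → H} (h : Bd c D) (h0 : 0 ≤ c) (hcc : c ≤ c') : Bd c' D :=
  ⟨fun a => (h.1 a).trans hcc, h.2.mono (pow_le_pow_left₀ h0 hcc 2)⟩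

/-- the increasing tuple of a decreasing list -/
def tup (K : ℕ) (p : List ℕ) : Fin K → ℕ := fun i => p.getD (K - 1 - i) 0

theorem tup_mem {K : ℕ} {p : List ℕ} (hK : p.length = K) (i : Fin K) : tup K p i ∈ p := by
  unfold tup
  have h : K - 1 - (i : ℕ) < p.length := by
    have := i.2
    omega
  rw [List.getD_eq_getElem _ _ h]
  exact List.getElem_mem h

theorem tup_mono {K : ℕ} {p : List ℕ} (hp : Dec p) (hK : p.length = K) : StrictMono (tup K p) := by
  intro i j hij
  have hij' : (i : ℕ) < (j : ℕ) := hij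
  unfold tup
  have hj : K - 1 - (j : ℕ) < p.length := by
    have := j.2
    omega
  have hi : K - 1 - (i : ℕ) < p.length := by
    have := i.2
    omega
  rw [List.getD_eq_getElem _ _ hj, List.getD_eq_getElem _ _ hi]
  have := j.2
  exact List.pairwise_iff_getElem.1 hp _ _ hj hi (by omega)

theorem tup_ham {K : ℕ} (r : List ℕ) (n n' : ℕ) (p : List ℕ) :
    hammingDist (tup K (r ++ n :: p)) (tup K (r ++ n' :: p)) ≤ 1 := by
  unfold hammingDist
  rw [Finset.card_le_one]
  have key : ∀ i : Fin K, tup K (r ++ n :: p) i ≠ tup K (r ++ n' :: p) i →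
      K - 1 - (i : ℕ) = r.length := by
    intro i hi
    by_contra h
    apply hi
    unfold tup
    simp only [List.getD_eq_getElem?_getD]
    congr 1
    rcases lt_or_gt_of_ne h with h1 | h1
    · rw [List.getElem?_append_left h1, List.getElem?_append_left h1]
    · rw [List.getElem?_append_right h1.le, List.getElem?_append_right h1.le]
      obtain ⟨m, hm⟩ : ∃ m, K - 1 - (i : ℕ) - r.length = m + 1 :=
        ⟨K - 1 - (i : ℕ) - r.length - 1, by omega⟩
      rw [hm, List.getElem?_cons_succ, List.getElem?_cons_succ]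
  intro i hi j hj
  have h1 := key i (by simpa using hi)
  have h2 := key j (by simpa using hj)
  have := i.2
  have := j.2
  apply Fin.ext
  omega

theorem concentration {K : ℕ} (hK0 : 0 < K) {L : ℝ} (hL : 0 < L) (f : (Fin K → ℕ) → JH H)
    (hf : ∀ x y : Fin K → ℕ, StrictMono x → StrictMono y →
      ‖f x - f y‖ ≤ L * (hammingDist x y : ℝ)) :
    ∃ x y : Fin K → ℕ, StrictMono x ∧ StrictMono y ∧ (∀ i j, x i ≠ y j) ∧
      ‖f x - f y‖ ^ 2 ≤ L ^ 2 * (52 * √(K : ℝ) ^ 3) := by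
  set F : List ℕ → ℕ → H := fun p => JH.co (L⁻¹ • f (tup K p)) with hF
  have hsub : ∀ p q, F p - F q = JH.co (L⁻¹ • (f (tup K p) - f (tup K q))) := by
    intro p q
    rw [hF]
    simp only
    rw [← map_sub, smul_sub]
  have hnorm : ∀ z : JH H, ‖L⁻¹ • z‖ = L⁻¹ * ‖z‖ := by
    intro z
    rw [norm_smul, Real.norm_of_nonneg (inv_nonneg.2 hL.le)]
  have hLip : LipK K F := by
    intro r n n' p h1 h2 h3
    rw [hsub]
    apply (JH.bd _).mono (norm_nonneg _)
    rw [hnorm]
    have h4 : (r ++ n' :: p).length = K := by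
      rw [← h3]
      simp
    have h5 := hf _ _ (tup_mono h1 h3) (tup_mono h2 h4)
    have h6 : ((hammingDist (tup K (r ++ n :: p)) (tup K (r ++ n' :: p)) : ℕ) : ℝ) ≤ 1 := by
      exact_mod_cast tup_ham r n n' p
    calc L⁻¹ * ‖f (tup K (r ++ n :: p)) - f (tup K (r ++ n' :: p))‖
        ≤ L⁻¹ * (L * 1) := by
          apply mul_le_mul_of_nonneg_left _ (inv_nonneg.2 hL.le)
          exact h5.trans (mul_le_mul_of_nonneg_left h6 hL.le)
      _ = 1 := by rw [mul_one, inv_mul_cancel₀ hL.ne']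
  set x₀ : Fin K → ℕ := fun i => i with hx₀
  have hx₀m : StrictMono x₀ := fun i j hij => hij
  set B : ℝ := ‖L⁻¹ • f x₀‖ + K with hB
  have hB0 : 0 ≤ B := by positivity
  have hBnd : Bnd K B F := by
    intro p hp hpK
    apply (JH.bd _).mono (norm_nonneg _)
    have h1 : L⁻¹ • f (tup K p) = L⁻¹ • f x₀ + L⁻¹ • (f (tup K p) - f x₀) := by
      rw [smul_sub]
      abel
    rw [h1]
    refine (norm_add_le _ _).trans (add_le_add le_rfl ?_)
    rw [hnorm]
    have h5 := hf _ _ (tup_mono hp hpK) hx₀m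
    have h6 : ((hammingDist (tup K p) x₀ : ℕ) : ℝ) ≤ K := by
      have := hammingDist_le_card_fintype (x := tup K p) (y := x₀)
      rw [Fintype.card_fin] at this
      exact_mod_cast this
    calc L⁻¹ * ‖f (tup K p) - f x₀‖ ≤ L⁻¹ * (L * K) := by
          apply mul_le_mul_of_nonneg_left _ (inv_nonneg.2 hL.le)
          exact h5.trans (mul_le_mul_of_nonneg_left h6 hL.le)
      _ = K := by rw [← mul_assoc, inv_mul_cancel₀ hL.ne', one_mul]
  have hκ : 1 ≤ √(K : ℝ) := by
    rw [Real.one_le_sqrt]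
    exact_mod_cast hK0
  have hκK : √(K : ℝ) ^ 2 = K := Real.sq_sqrt (by positivity)
  obtain ⟨p, p', hp, hp', hpK, hpK', hdis, -, hQ, -⟩ := game hB0 hBnd hLip hκ hκK K le_rfl
  refine ⟨tup K p, tup K p', tup_mono hp hpK, tup_mono hp' hpK', ?_, ?_⟩
  · intro i j hij
    apply hdis _ (tup_mem hpK i)
    rw [hij]
    exact tup_mem hpK' j
  · rw [tree_top F hpK, tree_top F hpK', hsub] at hQ
    have h1 := nrm_sq_le hQ
    rw [← JH.norm_def, hnorm, mul_pow, inv_pow] at h1
    have h2 : 52 * √(K : ℝ) * (K : ℝ) = 52 * √(K : ℝ) ^ 3 := by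
      conv_lhs => rw [← hκK]
      rw [Real.sqrt_sq (Real.sqrt_nonneg _)]
      ring
    rw [h2, inv_mul_le_iff₀ (by positivity)] at h1
    exact h1

theorem symm_card {K k : ℕ} (hk : k ≤ K) {x y : Fin K → ℕ} (hx : StrictMono x)
    (hy : StrictMono y) (hxy : ∀ i j, x i ≠ y j) :
    (symmDiff ((Finset.univ.filter (fun i : Fin K => i.val < k)).image x)
      ((Finset.univ.filter (fun i : Fin K => i.val < k)).image y)).card = 2 * k := by
  have hcard : (Finset.univ.filter (fun i : Fin K => i.val < k)).card = k := by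
    have h1 : (Finset.univ.filter (fun i : Fin K => i.val < k)) =
        (Finset.univ : Finset (Fin k)).map (Fin.castLEEmb hk) := by
      ext i
      simp only [mem_filter, mem_univ, true_and, Finset.mem_map]
      constructor
      · intro h
        exact ⟨⟨i, h⟩, rfl⟩
      · rintro ⟨j, rfl⟩
        exact j.2
    rw [h1, card_map, card_univ, Fintype.card_fin]
  have hdis : Disjoint ((Finset.univ.filter (fun i : Fin K => i.val < k)).image x)
      ((Finset.univ.filter (fun i : Fin K => i.val < k)).image y) := by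
    rw [Finset.disjoint_left]
    intro a ha hb
    obtain ⟨i, -, rfl⟩ := mem_image.1 ha
    obtain ⟨j, -, hj⟩ := mem_image.1 hb
    exact hxy i j hj.symm
  rw [hdis.symmDiff_eq_sup, Finset.sup_eq_union, card_union_of_disjoint hdis,
    card_image_of_injective _ hx.injective, card_image_of_injective _ hy.injective, hcard]
  ring

theorem no_map (ℓ : ℕ) (hℓ : 1 ≤ ℓ) (L : ℝ) (hL : 0 < L) : ∃ k : ℕ,
    ¬ ∃ f : (Fin (ℓ * k) → ℕ) → JH H,
      ∀ x y : Fin (ℓ * k) → ℕ, StrictMono x → StrictMono y →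
        ((symmDiff ((Finset.univ.filter (fun i : Fin (ℓ * k) => i.val < k)).image x)
            ((Finset.univ.filter (fun i : Fin (ℓ * k) => i.val < k)).image y)).card : ℝ) / 2
          ≤ ‖f x - f y‖ ∧
        ‖f x - f y‖ ≤ L * (hammingDist x y : ℝ) := by
  have hℓ' : (1 : ℝ) ≤ ℓ := by exact_mod_cast hℓ
  set M : ℝ := 52 * L ^ 2 * (ℓ : ℝ) ^ 2 with hM
  have hM0 : 0 < M := by positivity
  obtain ⟨k, hk⟩ := exists_nat_gt (M ^ 2)
  have hk0 : (0 : ℝ) < k := lt_of_le_of_lt (by positivity) hk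
  have hk0' : 0 < k := by exact_mod_cast hk0
  refine ⟨k, ?_⟩
  rintro ⟨f, hf⟩
  have hKpos : 0 < ℓ * k := Nat.mul_pos hℓ hk0'
  obtain ⟨x, y, hx, hy, hxy, hle⟩ := concentration hKpos hL f fun x y hx hy => (hf x y hx hy).2
  have h1 := (hf x y hx hy).1
  rw [symm_card (Nat.le_mul_of_pos_left k hℓ) hx hy hxy] at h1
  push_cast at h1
  have h2 : (k : ℝ) ≤ ‖f x - f y‖ := by linarith
  have h3 : (k : ℝ) ^ 2 ≤ L ^ 2 * (52 * √(((ℓ * k : ℕ) : ℝ)) ^ 3) :=
    (pow_le_pow_left₀ hk0.le h2 2).trans hle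
  set κ := √(((ℓ * k : ℕ) : ℝ)) with hκ
  have hκ2 : κ ^ 2 = (ℓ : ℝ) * k := by
    rw [hκ, Real.sq_sqrt (by positivity)]
    push_cast
    ring
  have hκpos : 0 < κ := Real.sqrt_pos.2 (by exact_mod_cast hKpos)
  have h4 : M < κ := by
    apply lt_of_pow_lt_pow_left₀ 2 hκpos.le
    rw [hκ2]
    nlinarith
  -- (ℓ k)^2 ≤ M κ^3, i.e. κ ≤ M
  have h5 : κ ^ 4 ≤ M * κ ^ 3 := by
    have e1 : κ ^ 4 = (ℓ : ℝ) ^ 2 * (k : ℝ) ^ 2 := by
      have : κ ^ 4 = (κ ^ 2) ^ 2 := by ring
      rw [this, hκ2]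
      ring
    rw [e1]
    calc (ℓ : ℝ) ^ 2 * (k : ℝ) ^ 2 ≤ (ℓ : ℝ) ^ 2 * (L ^ 2 * (52 * κ ^ 3)) :=
          mul_le_mul_of_nonneg_left h3 (by positivity)
      _ = M * κ ^ 3 := by
          rw [hM]
          ring
  have h6 : M * κ ^ 3 < κ * κ ^ 3 := mul_lt_mul_of_pos_right h4 (by positivity)
  have h7 : κ * κ ^ 3 = κ ^ 4 := by ring
  linarith

end Pool.Agent.X205.NQR
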