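import Mathlib

/-!
# Quadratic variation of Hilbert space valued sequences and weak limits along an ultrafilter
-/

set_option autoImplicit false
set_option linter.unusedSectionVars false

namespace Pool.Agent.X205.NQR

open Filter Topology Finset
open scoped InnerProductSpace

variable {H : Type} [NormedAddCommGroup H] [InnerProductSpace ℝ H]

/-- the quadratic variation of `D` along `s 0, ..., s m` -/
noncomputable def qv (D : ℕ → H) (s : ℕ → ℕ) (m : ℕ) : ℝ :=
  ∑ i ∈ range m, ‖D (s (i + 1)) - D (s i)‖ ^ 2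

/-- the quadratic variation is at most `v` -/
def QV (v : ℝ) (D : ℕ → H) : Prop := ∀ s : ℕ → ℕ, Monotone s → ∀ m, qv D s m ≤ v

/-- sup norm at most `c` and quadratic variation at most `c ^ 2` -/
def Bd (c : ℝ) (D : ℕ → H) : Prop := (∀ a, ‖D a‖ ≤ c) ∧ QV (c ^ 2) D

theorem qv_nonneg (D : ℕ → H) (s : ℕ → ℕ) (m : ℕ) : 0 ≤ qv D s m :=
  sum_nonneg fun _ _ => sq_nonneg _

theorem QV.nonneg {v : ℝ} {D : ℕ → H} (h : QV v D) : 0 ≤ v :=
  (qv_nonneg D id 0).trans (h id monotone_id 0)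

theorem QV.mono {v w : ℝ} {D : ℕ → H} (h : QV v D) (hvw : v ≤ w) : QV w D :=
  fun s hs m => (h s hs m).trans hvw

theorem QV.pair {v : ℝ} {D : ℕ → H} (h : QV v D) {a b : ℕ} (hab : a ≤ b) :
    ‖D b - D a‖ ^ 2 ≤ v := by
  have h1 := h (fun i => if i = 0 then a else b) (by
    intro i j hij
    by_cases hi : i = 0
    · by_cases hj : j = 0
      · simp [hi, hj]
      · simpa [hi, hj] using hab
    · have hj : j ≠ 0 := by omega
      simp [hi, hj]) 1
  simpa [qv] using h1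

theorem QV.pair' {c : ℝ} (hc : 0 ≤ c) {D : ℕ → H} (h : QV (c ^ 2) D) {a b : ℕ} (hab : a ≤ b) :
    ‖D b - D a‖ ≤ c := by
  have := h.pair hab
  exact le_of_sq_le_sq this hc

/-- the tail of a sequence of finite quadratic variation has small quadratic variation -/
theorem QV.tail {v : ℝ} {D : ℕ → H} (h : QV v D) {δ : ℝ} (hδ : 0 < δ) :
    ∃ T : ℕ, ∀ s : ℕ → ℕ, Monotone s → T ≤ s 0 → ∀ m, qv D s m ≤ δ := by
  set A : Set ℝ := {r | ∃ s : ℕ → ℕ, Monotone s ∧ ∃ m, r = qv D s m} with hA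
  have hne : A.Nonempty := ⟨_, id, monotone_id, 0, rfl⟩
  have hbd : BddAbove A := ⟨v, by rintro r ⟨s, hs, m, rfl⟩; exact h s hs m⟩
  obtain ⟨r, ⟨s₀, hs₀, m₀, rfl⟩, hr⟩ := exists_lt_of_lt_csSup hne (sub_lt_self (sSup A) hδ)
  refine ⟨s₀ m₀, fun s hs hT m => ?_⟩
  set s' : ℕ → ℕ := fun i => if i ≤ m₀ then s₀ i else s (i - (m₀ + 1)) with hs'
  have hmono : Monotone s' := by
    intro i j hij
    simp only [hs']
    by_cases hi : i ≤ m₀
    · by_cases hj : j ≤ m₀
      · simp only [hi, hj, if_true]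
        exact hs₀ hij
      · simp only [hi, hj, if_true, if_false]
        exact (hs₀ hi).trans (hT.trans (hs (Nat.zero_le _)))
    · have hj : ¬ j ≤ m₀ := by omega
      simp only [hi, hj, if_false]
      exact hs (by omega)
  have h1 : qv D s' (m₀ + 1 + m) = qv D s₀ m₀ + ‖D (s 0) - D (s₀ m₀)‖ ^ 2 + qv D s m := by
    unfold qv
    rw [sum_range_add, sum_range_succ]
    congr 1
    · congr 1
      · apply sum_congr rfl
        intro i hi
        have hi' := mem_range.1 hi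
        simp only [hs']
        rw [if_pos (by omega), if_pos (by omega)]
      · simp only [hs']
        rw [if_neg (by omega), if_pos le_rfl]
        simp
    · apply sum_congr rfl
      intro i _
      simp only [hs']
      rw [if_neg (by omega), if_neg (by omega)]
      congr 5 <;> omega
  have h2 : qv D s' (m₀ + 1 + m) ≤ sSup A := le_csSup hbd ⟨s', hmono, _, rfl⟩
  have h3 : 0 ≤ ‖D (s 0) - D (s₀ m₀)‖ ^ 2 := sq_nonneg _
  linarith

/-- a sequence of finite quadratic variation is Cauchy -/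
theorem QV.cauchy {v : ℝ} {D : ℕ → H} (h : QV v D) : CauchySeq D := by
  rw [Metric.cauchySeq_iff']
  intro ε hε
  obtain ⟨T, hT⟩ := h.tail (δ := (ε / 2) ^ 2) (by positivity)
  refine ⟨T, fun n hn => ?_⟩
  have h1 := hT (fun i => if i = 0 then T else n) (by
    intro i j hij
    by_cases hi : i = 0
    · by_cases hj : j = 0
      · simp [hi, hj]
      · simpa [hi, hj] using hn
    · have hj : j ≠ 0 := by omega
      simp [hi, hj]) (by simp) 1
  have h2 : ‖D n - D T‖ ^ 2 ≤ (ε / 2) ^ 2 := by simpa [qv] using h1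
  rw [dist_eq_norm]
  have := le_of_sq_le_sq h2 (by positivity)
  linarith

section weak

/-- weak null along the hyperfilter in every coordinate -/
def WN (A : ℕ → ℕ → H) : Prop :=
  ∀ (a : ℕ) (v : H), Tendsto (fun n => ⟪A n a, v⟫_ℝ) (hyperfilter ℕ) (𝓝 0)

open Classical in
/-- the weak limit along the hyperfilter (`0` if it does not exist) -/
noncomputable def wl (u : ℕ → H) : H :=
  if h : ∃ w : H, ∀ v, Tendsto (fun n => ⟪u n, v⟫_ℝ) (hyperfilter ℕ) (𝓝 ⟪w, v⟫_ℝ) then h.choose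
  else 0

theorem wl_spec [CompleteSpace H] {u : ℕ → H} {B : ℝ} (hB : ∀ᶠ n in (hyperfilter ℕ : Filter ℕ), ‖u n‖ ≤ B)
    (v : H) : Tendsto (fun n => ⟪u n, v⟫_ℝ) (hyperfilter ℕ) (𝓝 ⟪wl u, v⟫_ℝ) := by
  have hex : ∃ w : H, ∀ v, Tendsto (fun n => ⟪u n, v⟫_ℝ) (hyperfilter ℕ) (𝓝 ⟪w, v⟫_ℝ) := by
    let φ : ℕ → WeakDual ℝ H := fun n => StrongDual.toWeakDual (InnerProductSpace.toDual ℝ H (u n))
    have hK : IsCompact (WeakDual.toStrongDual ⁻¹' Metric.closedBall (0 : StrongDual ℝ H) B) :=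
      WeakDual.isCompact_closedBall (0 : StrongDual ℝ H) B
    have hmem : ∀ᶠ n in (hyperfilter ℕ : Filter ℕ),
        φ n ∈ (WeakDual.toStrongDual ⁻¹' Metric.closedBall (0 : StrongDual ℝ H) B) := by
      filter_upwards [hB] with n hn
      change InnerProductSpace.toDual ℝ H (u n) ∈ Metric.closedBall (0 : StrongDual ℝ H) B
      rw [mem_closedBall_zero_iff, LinearIsometryEquiv.norm_map]
      exact hn
    obtain ⟨ψ, -, hψ⟩ := hK.ultrafilter_le_nhds' ((hyperfilter ℕ).map φ) hmem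
    refine ⟨(InnerProductSpace.toDual ℝ H).symm (WeakDual.toStrongDual ψ), fun v => ?_⟩
    rw [InnerProductSpace.toDual_symm_apply]
    have h1 : Tendsto φ (hyperfilter ℕ) (𝓝 ψ) := hψ
    have h2 := ((WeakDual.eval_continuous v).tendsto ψ).comp h1
    exact h2
  unfold wl
  rw [dif_pos hex]
  exact hex.choose_spec v

theorem norm_le_of_weak {u : ℕ → H} {w : H} {B : ℝ} (hB0 : 0 ≤ B)
    (hB : ∀ᶠ n in (hyperfilter ℕ : Filter ℕ), ‖u n‖ ≤ B)
    (h : ∀ v, Tendsto (fun n => ⟪u n, v⟫_ℝ) (hyperfilter ℕ) (𝓝 ⟪w, v⟫_ℝ)) : ‖w‖ ≤ B := by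
  have h1 : ⟪w, w⟫_ℝ ≤ B * ‖w‖ := by
    apply le_of_tendsto (h w)
    filter_upwards [hB] with n hn
    exact (real_inner_le_norm _ _).trans (mul_le_mul_of_nonneg_right hn (norm_nonneg _))
  rw [real_inner_self_eq_norm_sq] at h1
  by_contra h2
  push Not at h2
  have h3 : 0 < ‖w‖ := hB0.trans_lt h2
  nlinarith

/-- closedness of `Bd` under coordinatewise weak limits -/
theorem Bd.of_weak {A : ℕ → ℕ → H} {D : ℕ → H} {c : ℝ} (hc : 0 ≤ c)
    (hA : ∀ᶠ n in (hyperfilter ℕ : Filter ℕ), Bd c (A n))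
    (h : ∀ a v, Tendsto (fun n => ⟪A n a, v⟫_ℝ) (hyperfilter ℕ) (𝓝 ⟪D a, v⟫_ℝ)) : Bd c D := by
  refine ⟨fun a => norm_le_of_weak hc (hA.mono fun n hn => hn.1 a) (h a), ?_⟩
  intro s hs m
  have h0 := qv_nonneg D s m
  set σ := qv D s m with hσ
  have h1 : Tendsto (fun n => ∑ i ∈ range m,
      ⟪A n (s (i + 1)) - A n (s i), D (s (i + 1)) - D (s i)⟫_ℝ) (hyperfilter ℕ) (𝓝 σ) := by
    have h2 : σ = ∑ i ∈ range m,
        ⟪D (s (i + 1)) - D (s i), D (s (i + 1)) - D (s i)⟫_ℝ := by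
      rw [hσ, qv]
      exact sum_congr rfl fun i _ => (real_inner_self_eq_norm_sq _).symm
    rw [h2]
    apply tendsto_finsetSum
    intro i _
    simp only [inner_sub_left]
    exact (h _ _).sub (h _ _)
  have h3 : σ ≤ c * √σ := by
    apply le_of_tendsto h1
    filter_upwards [hA] with n hn
    calc ∑ i ∈ range m, ⟪A n (s (i + 1)) - A n (s i), D (s (i + 1)) - D (s i)⟫_ℝ
        ≤ ∑ i ∈ range m, ‖A n (s (i + 1)) - A n (s i)‖ * ‖D (s (i + 1)) - D (s i)‖ :=
          sum_le_sum fun i _ => real_inner_le_norm _ _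
      _ ≤ √(∑ i ∈ range m, ‖A n (s (i + 1)) - A n (s i)‖ ^ 2) *
          √(∑ i ∈ range m, ‖D (s (i + 1)) - D (s i)‖ ^ 2) := Real.sum_mul_le_sqrt_mul_sqrt _ _ _
      _ ≤ c * √σ := by
          apply mul_le_mul_of_nonneg_right _ (Real.sqrt_nonneg _)
          rw [Real.sqrt_le_left hc]
          exact hn.2 s hs m
  have h4 : √σ * √σ = σ := Real.mul_self_sqrt h0
  have h5 : √σ ≤ c := by
    by_contra h6
    push Not at h6
    have h7 : 0 < √σ := hc.trans_lt h6
    nlinarith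
  calc σ = √σ * √σ := h4.symm
    _ ≤ c * c := mul_le_mul h5 h5 (Real.sqrt_nonneg _) hc
    _ = c ^ 2 := by ring

end weak

end Pool.Agent.X205.NQR
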