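import Pool.Agent.X205.NQR.Space

/-!
# The James space of `H`-valued sequences is not quasi-reflexive
-/

set_option autoImplicit false
set_option linter.unusedSectionVars false

namespace Pool.Agent.X205.NQR

open Filter Topology Finset
open scoped InnerProductSpace

variable {H : Type} [NormedAddCommGroup H] [InnerProductSpace ℝ H]

/-- the coordinate functional `x ↦ ⟪x t, h⟫` -/
noncomputable def ec (h : H) (t : ℕ) : JH H →L[ℝ] ℝ :=
  LinearMap.mkContinuous
    { toFun := fun x => ⟪JH.co x t, h⟫_ℝ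
      map_add' := fun x y => by rw [map_add, Pi.add_apply, inner_add_left]
      map_smul' := fun c x => by
        rw [map_smul, Pi.smul_apply, real_inner_smul_left]
        rfl } ‖h‖ (fun x => by
      change ‖⟪JH.co x t, h⟫_ℝ‖ ≤ ‖h‖ * ‖x‖
      rw [mul_comm]
      exact (norm_inner_le_norm _ _).trans
        (mul_le_mul_of_nonneg_right (x.co_le t) (norm_nonneg _)))

theorem ec_apply (h : H) (t : ℕ) (x : JH H) : ec h t x = ⟪JH.co x t, h⟫_ℝ := rfl

/-- the sequence `h, ..., h, 0, 0, ...` -/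
noncomputable def ufun (h : H) (t : ℕ) : ℕ → H := fun n => if n ≤ t then h else 0

theorem ufun_qv {h : H} (hh : ‖h‖ = 1) (t : ℕ) : QV 1 (ufun h t) := by
  intro s hs m
  have h1 : qv (ufun h t) s m ≤ ∑ i ∈ range m,
      ((if s i ≤ t then (1 : ℝ) else 0) - (if s (i + 1) ≤ t then (1 : ℝ) else 0)) := by
    apply sum_le_sum
    intro i _
    have h2 : s i ≤ s (i + 1) := hs (Nat.le_succ i)
    simp only [ufun]
    by_cases ha : s (i + 1) ≤ t
    · rw [if_pos ha, if_pos (h2.trans ha), if_pos ha, if_pos (h2.trans ha)]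
      simp
    · rw [if_neg ha, if_neg ha]
      by_cases hb : s i ≤ t
      · rw [if_pos hb, if_pos hb, zero_sub, norm_neg, hh]
        norm_num
      · rw [if_neg hb, if_neg hb]
        simp
  rw [sum_range_sub' (fun i => if s i ≤ t then (1 : ℝ) else 0)] at h1
  refine h1.trans ?_
  have e1 : (if s 0 ≤ t then (1 : ℝ) else 0) ≤ 1 := by split_ifs <;> norm_num
  have e2 : (0 : ℝ) ≤ (if s m ≤ t then (1 : ℝ) else 0) := by split_ifs <;> norm_num
  linarith

theorem ufun_mem {h : H} (hh : ‖h‖ = 1) (t : ℕ) : ufun h t ∈ JSub H := by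
  refine ⟨⟨1, ufun_qv hh t⟩, ?_⟩
  apply tendsto_const_nhds.congr'
  filter_upwards [eventually_gt_atTop t] with n hn
  simp only [ufun]
  rw [if_neg (by omega)]

/-- the element `(h, ..., h, 0, 0, ...)` -/
noncomputable def uel {h : H} (hh : ‖h‖ = 1) (t : ℕ) : JH H := JH.mk (ufun h t) (ufun_mem hh t)

theorem uel_norm {h : H} (hh : ‖h‖ = 1) (t : ℕ) : ‖uel hh t‖ ≤ 1 := by
  rw [JH.norm_def]
  apply nrm_le zero_le_one
  rw [one_pow]
  exact ufun_qv hh t

theorem exists_limit' {E : Type} [NormedAddCommGroup E] [NormedSpace ℝ E]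
    {v : ℕ → StrongDual ℝ E} (hv : ∀ n, ‖v n‖ ≤ 1) : ∃ φ : StrongDual ℝ E,
      ∀ g : E, Tendsto (fun n => v n g) (hyperfilter ℕ) (𝓝 (φ g)) := by
  let φ : ℕ → WeakDual ℝ E := fun n => StrongDual.toWeakDual (v n)
  have hK : IsCompact (WeakDual.toStrongDual ⁻¹' Metric.closedBall (0 : StrongDual ℝ E) 1) :=
    WeakDual.isCompact_closedBall (0 : StrongDual ℝ E) 1
  have hmem : ∀ᶠ n in (hyperfilter ℕ : Filter ℕ), φ n ∈ (WeakDual.toStrongDual ⁻¹'
      Metric.closedBall (0 : StrongDual ℝ E) 1) := by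
    apply Eventually.of_forall
    intro n
    change v n ∈ Metric.closedBall (0 : StrongDual ℝ E) 1
    rw [mem_closedBall_zero_iff]
    exact hv n
  obtain ⟨ψ, -, hψ⟩ := hK.ultrafilter_le_nhds' ((hyperfilter ℕ).map φ) hmem
  refine ⟨WeakDual.toStrongDual ψ, fun g => ?_⟩
  have h1 : Tendsto φ (hyperfilter ℕ) (𝓝 ψ) := hψ
  exact ((WeakDual.eval_continuous g).tendsto ψ).comp h1

theorem exists_limit {E : Type} [NormedAddCommGroup E] [NormedSpace ℝ E] {u : ℕ → E}
    (hu : ∀ n, ‖u n‖ ≤ 1) : ∃ φ : (E →L[ℝ] ℝ) →L[ℝ] ℝ,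
      ∀ g : E →L[ℝ] ℝ, Tendsto (fun n => g (u n)) (hyperfilter ℕ) (𝓝 (φ g)) :=
  exists_limit' (E := StrongDual ℝ E) (v := fun n => NormedSpace.inclusionInDoubleDual ℝ E (u n))
    fun n => (NormedSpace.double_dual_bound ℝ E (u n)).trans (hu n)

theorem exists_bidual {h : H} (hh : ‖h‖ = 1) : ∃ φ : (JH H →L[ℝ] ℝ) →L[ℝ] ℝ,
    ∀ (h' : H) (t : ℕ), φ (ec h' t) = ⟪h, h'⟫_ℝ := by
  obtain ⟨φ, hφ⟩ := exists_limit (fun n => uel_norm hh n)
  refine ⟨φ, fun h' t => ?_⟩
  have h3 : Tendsto (fun n => ⟪ufun h n t, h'⟫_ℝ) (hyperfilter ℕ) (𝓝 (φ (ec h' t))) :=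
    hφ (ec h' t)
  have h4 : Tendsto (fun n => ⟪ufun h n t, h'⟫_ℝ) (hyperfilter ℕ) (𝓝 ⟪h, h'⟫_ℝ) := by
    apply tendsto_const_nhds.congr'
    have : ∀ᶠ n in (hyperfilter ℕ : Filter ℕ), t ≤ n :=
      (eventually_ge_atTop t).filter_mono Nat.hyperfilter_le_atTop
    filter_upwards [this] with n hn
    simp only [ufun]
    rw [if_pos hn]
  exact tendsto_nhds_unique h3 h4

theorem not_quasiReflexive {e : ℕ → H} (he : Orthonormal ℝ e)
    (s : Finset ((JH H →L[ℝ] ℝ) →L[ℝ] ℝ)) : ∃ φ : (JH H →L[ℝ] ℝ) →L[ℝ] ℝ,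
      φ ∉ Submodule.span ℝ
        ((↑s : Set ((JH H →L[ℝ] ℝ) →L[ℝ] ℝ)) ∪
          {ψ : (JH H →L[ℝ] ℝ) →L[ℝ] ℝ | ∃ x : JH H, ∀ g : JH H →L[ℝ] ℝ, ψ g = g x}) := by
  classical
  by_contra hcon
  push Not at hcon
  choose Φ hΦ using fun j => exists_bidual (he.1 j)
  let N : Submodule ℝ (ℕ → ℕ → ℝ) :=
    { carrier := {y | ∀ j, Tendsto (y j) atTop (𝓝 0)}
      add_mem' := fun {a b} ha hb j => by
        have := (ha j).add (hb j)
        rw [add_zero] at this
        exact this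
      zero_mem' := fun j => tendsto_const_nhds
      smul_mem' := fun c x hx j => by
        have := (hx j).const_smul c
        rw [smul_zero] at this
        exact this }
  let Θ : ((JH H →L[ℝ] ℝ) →L[ℝ] ℝ) →ₗ[ℝ] (ℕ → ℕ → ℝ) :=
    { toFun := fun φ j t => φ (ec (e j) t)
      map_add' := fun φ ψ => rfl
      map_smul' := fun c φ => rfl }
  let Q := N.mkQ.comp Θ
  have hQR : ∀ ψ : (JH H →L[ℝ] ℝ) →L[ℝ] ℝ, (∃ x : JH H, ∀ g : JH H →L[ℝ] ℝ, ψ g = g x) →
      Q ψ = 0 := by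
    rintro ψ ⟨x, hx⟩
    change N.mkQ (Θ ψ) = 0
    rw [Submodule.mkQ_apply, Submodule.Quotient.mk_eq_zero]
    intro j
    change Tendsto (fun t => ψ (ec (e j) t)) atTop (𝓝 0)
    have h1 : Tendsto (fun t => ⟪JH.co x t, e j⟫_ℝ) atTop (𝓝 ⟪(0 : H), e j⟫_ℝ) :=
      x.null.inner tendsto_const_nhds
    rw [inner_zero_left] at h1
    apply h1.congr
    intro t
    rw [hx, ec_apply]
  have hli : LinearIndependent ℝ fun j => Q (Φ j) := by
    rw [linearIndependent_iff']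
    intro S c hc i hi
    have h1 : N.mkQ (∑ j ∈ S, c j • Θ (Φ j)) = 0 := by
      rw [map_sum]
      simp only [map_smul]
      exact hc
    rw [Submodule.mkQ_apply, Submodule.Quotient.mk_eq_zero] at h1
    have h2 := h1 i
    have h3 : (fun t : ℕ => c i) = (∑ j ∈ S, c j • Θ (Φ j)) i := by
      funext t
      rw [Finset.sum_apply, Finset.sum_apply]
      have h4 : ∀ j ∈ S, (c j • Θ (Φ j)) i t = if j = i then c i else 0 := by
        intro j _
        change c j * Φ j (ec (e i) t) = _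
        rw [hΦ, orthonormal_iff_ite.1 he j i]
        split_ifs with h
        · subst h
          ring
        · ring
      rw [Finset.sum_congr rfl h4, Finset.sum_ite_eq' S i, if_pos hi]
    rw [← h3] at h2
    exact tendsto_nhds_unique tendsto_const_nhds h2
  let W := Submodule.span ℝ (Q '' (↑s : Set ((JH H →L[ℝ] ℝ) →L[ℝ] ℝ)))
  have hfin : FiniteDimensional ℝ W := FiniteDimensional.span_of_finite ℝ (s.finite_toSet.image _)
  have hW : ∀ j, Q (Φ j) ∈ W := by
    intro j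
    have h1 := Submodule.mem_map_of_mem (f := Q) (hcon (Φ j))
    rw [Submodule.map_span] at h1
    refine Submodule.span_le.2 ?_ h1
    rintro y ⟨ψ, hψ, rfl⟩
    rcases hψ with hψ | hψ
    · exact Submodule.subset_span ⟨ψ, hψ, rfl⟩
    · rw [hQR ψ hψ]
      exact W.zero_mem
  have hli' : LinearIndependent ℝ fun j => (⟨Q (Φ j), hW j⟩ : W) :=
    LinearIndependent.of_comp W.subtype hli
  have := hli'.finite_of_isNoetherian
  exact not_finite ℕ

end Pool.Agent.X205.NQR
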