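import Pool.Agent.X205.NQR.Tree
import Pool.Agent.X205.JT.Base

/-!
# The James space of Hilbert space valued sequences
-/

set_option autoImplicit false
set_option linter.unusedSectionVars false

namespace Pool.Agent.X205.NQR

open Filter Topology Finset
open scoped InnerProductSpace

variable {H : Type} [NormedAddCommGroup H] [InnerProductSpace ℝ H]

/-- `sup` of the square roots of the quadratic variations -/
noncomputable def nrm (x : ℕ → H) : ℝ :=
  sSup {r | ∃ s : ℕ → ℕ, Monotone s ∧ ∃ m, r = √(qv x s m)}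

theorem nrm_nonempty (x : ℕ → H) :
    {r | ∃ s : ℕ → ℕ, Monotone s ∧ ∃ m, r = √(qv x s m)}.Nonempty := ⟨_, id, monotone_id, 0, rfl⟩

theorem nrm_bdd {x : ℕ → H} {v : ℝ} (h : QV v x) :
    BddAbove {r | ∃ s : ℕ → ℕ, Monotone s ∧ ∃ m, r = √(qv x s m)} := by
  refine ⟨√v, ?_⟩
  rintro r ⟨s, hs, m, rfl⟩
  exact Real.sqrt_le_sqrt (h s hs m)

theorem nrm_nonneg (x : ℕ → H) : 0 ≤ nrm x := by
  apply Real.sSup_nonneg
  rintro r ⟨s, -, m, rfl⟩
  exact Real.sqrt_nonneg _

theorem nrm_le {x : ℕ → H} {c : ℝ} (hc : 0 ≤ c) (h : QV (c ^ 2) x) : nrm x ≤ c := by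
  apply csSup_le (nrm_nonempty x)
  rintro r ⟨s, hs, m, rfl⟩
  rw [Real.sqrt_le_left hc]
  exact h s hs m

theorem nrm_sq_le {x : ℕ → H} {v : ℝ} (h : QV v x) : nrm x ^ 2 ≤ v := by
  have h1 : nrm x ≤ √v := nrm_le (Real.sqrt_nonneg _) (by rw [Real.sq_sqrt h.nonneg]; exact h)
  calc nrm x ^ 2 ≤ √v ^ 2 := pow_le_pow_left₀ (nrm_nonneg x) h1 2
    _ = v := Real.sq_sqrt h.nonneg

theorem QV.nrm {x : ℕ → H} {v : ℝ} (h : QV v x) : QV (nrm x ^ 2) x := by
  intro s hs m
  have h1 : √(qv x s m) ≤ Pool.Agent.X205.NQR.nrm x := le_csSup (nrm_bdd h) ⟨s, hs, m, rfl⟩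
  calc qv x s m = √(qv x s m) ^ 2 := (Real.sq_sqrt (qv_nonneg _ _ _)).symm
    _ ≤ _ := pow_le_pow_left₀ (Real.sqrt_nonneg _) h1 2

theorem sqrt_qv_add (x y : ℕ → H) (s : ℕ → ℕ) (m : ℕ) :
    √(qv (x + y) s m) ≤ √(qv x s m) + √(qv y s m) := by
  refine le_trans ?_ (Pool.Agent.X205.JT.l2_add (range m) (fun i => ‖x (s (i + 1)) - x (s i)‖)
    (fun i => ‖y (s (i + 1)) - y (s i)‖))
  apply Real.sqrt_le_sqrt
  apply sum_le_sum
  intro i _
  apply pow_le_pow_left₀ (norm_nonneg _)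
  have : (x + y) (s (i + 1)) - (x + y) (s i) =
      (x (s (i + 1)) - x (s i)) + (y (s (i + 1)) - y (s i)) := by
    simp only [Pi.add_apply]
    abel
  rw [this]
  exact norm_add_le _ _

theorem QV.add {x y : ℕ → H} {v w : ℝ} (hx : QV v x) (hy : QV w y) :
    QV ((√v + √w) ^ 2) (x + y) := by
  intro s hs m
  have h1 := sqrt_qv_add x y s m
  have h2 := Real.sqrt_le_sqrt (hx s hs m)
  have h3 := Real.sqrt_le_sqrt (hy s hs m)
  calc qv (x + y) s m = √(qv (x + y) s m) ^ 2 := (Real.sq_sqrt (qv_nonneg _ _ _)).symm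
    _ ≤ _ := pow_le_pow_left₀ (Real.sqrt_nonneg _) (by linarith) 2

theorem qv_smul (c : ℝ) (x : ℕ → H) (s : ℕ → ℕ) (m : ℕ) : qv (c • x) s m = c ^ 2 * qv x s m := by
  unfold qv
  rw [mul_sum]
  apply sum_congr rfl
  intro i _
  have : (c • x) (s (i + 1)) - (c • x) (s i) = c • (x (s (i + 1)) - x (s i)) := by
    simp only [Pi.smul_apply]
    rw [smul_sub]
  rw [this, norm_smul, mul_pow, Real.norm_eq_abs, sq_abs]

theorem QV.smul {x : ℕ → H} {v : ℝ} (c : ℝ) (h : QV v x) : QV (c ^ 2 * v) (c • x) := by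
  intro s hs m
  rw [qv_smul]
  exact mul_le_mul_of_nonneg_left (h s hs m) (sq_nonneg _)

theorem nrm_add {x y : ℕ → H} {v w : ℝ} (hx : QV v x) (hy : QV w y) :
    nrm (x + y) ≤ nrm x + nrm y := by
  apply csSup_le (nrm_nonempty _)
  rintro r ⟨s, hs, m, rfl⟩
  refine (sqrt_qv_add x y s m).trans (add_le_add ?_ ?_)
  · exact le_csSup (nrm_bdd hx) ⟨s, hs, m, rfl⟩
  · exact le_csSup (nrm_bdd hy) ⟨s, hs, m, rfl⟩

theorem nrm_smul_le {x : ℕ → H} {v : ℝ} (c : ℝ) (hx : QV v x) : nrm (c • x) ≤ |c| * nrm x := by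
  apply nrm_le (mul_nonneg (abs_nonneg _) (nrm_nonneg _))
  rw [mul_pow, sq_abs]
  exact hx.nrm.smul c

theorem nrm_smul {x : ℕ → H} {v : ℝ} (c : ℝ) (hx : QV v x) : nrm (c • x) = |c| * nrm x := by
  apply le_antisymm (nrm_smul_le c hx)
  rcases eq_or_ne c 0 with rfl | hc
  · rw [abs_zero, zero_mul]
    exact nrm_nonneg _
  · have h1 := nrm_smul_le c⁻¹ (hx.smul c)
    rw [smul_smul, inv_mul_cancel₀ hc, one_smul, abs_inv] at h1
    have h2 : 0 < |c| := abs_pos.2 hc
    calc |c| * nrm x ≤ |c| * (|c|⁻¹ * nrm (c • x)) := mul_le_mul_of_nonneg_left h1 h2.le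
      _ = nrm (c • x) := by rw [← mul_assoc, mul_inv_cancel₀ h2.ne', one_mul]

theorem coord_le {x : ℕ → H} {v : ℝ} (hx : QV v x) (h0 : Tendsto x atTop (𝓝 0)) (a : ℕ) :
    ‖x a‖ ≤ nrm x := by
  have h1 : Tendsto (fun b => ‖x b - x a‖) atTop (𝓝 ‖0 - x a‖) :=
    (h0.sub tendsto_const_nhds).norm
  rw [zero_sub, norm_neg] at h1
  apply le_of_tendsto h1
  filter_upwards [eventually_ge_atTop a] with b hb
  exact QV.pair' (nrm_nonneg x) hx.nrm hb

/-- the underlying vector space: null sequences of finite quadratic variation -/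
def JSub (H : Type) [NormedAddCommGroup H] [InnerProductSpace ℝ H] : Submodule ℝ (ℕ → H) where
  carrier := {x | (∃ v, QV v x) ∧ Tendsto x atTop (𝓝 0)}
  add_mem' := by
    rintro x y ⟨⟨v, hv⟩, hx⟩ ⟨⟨w, hw⟩, hy⟩
    refine ⟨⟨_, hv.add hw⟩, ?_⟩
    have := hx.add hy
    rw [add_zero] at this
    exact this
  zero_mem' := by
    refine ⟨⟨0, ?_⟩, tendsto_const_nhds⟩
    simpa using (Bd.zero (H := H) le_rfl).2
  smul_mem' := by
    rintro c x ⟨⟨v, hv⟩, hx⟩
    refine ⟨⟨_, hv.smul c⟩, ?_⟩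
    have := hx.const_smul c
    rw [smul_zero] at this
    exact this

/-- James' space of `H`-valued sequences: null sequences `x` with
`‖x‖ = sup (∑ ‖x (s (i+1)) - x (s i)‖ ^ 2) ^ (1/2) < ∞` -/
def JH (H : Type) [NormedAddCommGroup H] [InnerProductSpace ℝ H] : Type := ↥(JSub H)

noncomputable instance : AddCommGroup (JH H) := inferInstanceAs (AddCommGroup ↥(JSub H))

noncomputable instance : Module ℝ (JH H) := inferInstanceAs (Module ℝ ↥(JSub H))

/-- the coordinates -/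
def JH.co : JH H →ₗ[ℝ] (ℕ → H) := (JSub H).subtype

/-- the element with given coordinates -/
def JH.mk (x : ℕ → H) (hx : x ∈ JSub H) : JH H := ⟨x, hx⟩

theorem JH.co_mk (x : ℕ → H) (hx : x ∈ JSub H) : JH.co (JH.mk x hx) = x := rfl

theorem JH.qv (x : JH H) : ∃ v, QV v (JH.co x) := x.2.1

theorem JH.null (x : JH H) : Tendsto (JH.co x) atTop (𝓝 0) := x.2.2

theorem JH.co_inj : Function.Injective (JH.co (H := H)) := Subtype.coe_injective

noncomputable instance : Norm (JH H) := ⟨fun x => nrm (JH.co x)⟩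

theorem JH.core : NormedSpace.Core ℝ (JH H) where
  norm_nonneg x := nrm_nonneg _
  norm_smul c x := by
    obtain ⟨v, hv⟩ := x.qv
    change nrm (JH.co (c • x)) = |c| * nrm (JH.co x)
    rw [map_smul]
    exact nrm_smul c hv
  norm_triangle x y := by
    obtain ⟨v, hv⟩ := x.qv
    obtain ⟨w, hw⟩ := y.qv
    change nrm (JH.co (x + y)) ≤ nrm (JH.co x) + nrm (JH.co y)
    rw [map_add]
    exact nrm_add hv hw
  norm_eq_zero_iff x := by
    constructor
    · intro h
      change nrm (JH.co x) = 0 at h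
      obtain ⟨v, hv⟩ := x.qv
      apply JH.co_inj
      rw [map_zero]
      funext a
      have h1 := coord_le hv x.null a
      rw [h] at h1
      exact norm_le_zero_iff.1 h1
    · rintro rfl
      change nrm (JH.co 0) = 0
      rw [map_zero]
      apply le_antisymm _ (nrm_nonneg _)
      apply nrm_le le_rfl
      exact (Bd.zero (H := H) le_rfl).2

noncomputable instance : NormedAddCommGroup (JH H) := NormedAddCommGroup.ofCore JH.core

noncomputable instance : NormedSpace ℝ (JH H) := NormedSpace.ofCore JH.core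

theorem JH.norm_def (x : JH H) : ‖x‖ = nrm (JH.co x) := rfl

theorem JH.qv_norm (x : JH H) : QV (‖x‖ ^ 2) (JH.co x) := by
  obtain ⟨v, hv⟩ := x.qv
  exact hv.nrm

theorem JH.co_le (x : JH H) (a : ℕ) : ‖JH.co x a‖ ≤ ‖x‖ := by
  obtain ⟨v, hv⟩ := x.qv
  exact coord_le hv x.null a

theorem JH.bd (x : JH H) : Bd ‖x‖ (JH.co x) := ⟨x.co_le, x.qv_norm⟩

instance [CompleteSpace H] : CompleteSpace (JH H) := by
  apply Metric.complete_of_cauchySeq_tendsto
  intro u hu
  have hco : ∀ a, CauchySeq fun n => JH.co (u n) a := by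
    intro a
    rw [Metric.cauchySeq_iff] at hu ⊢
    intro ε hε
    obtain ⟨N, hN⟩ := hu ε hε
    refine ⟨N, fun m hm n hn => ?_⟩
    have h1 := hN m hm n hn
    rw [dist_eq_norm] at h1 ⊢
    have h2 := JH.co_le (u m - u n) a
    rw [map_sub, Pi.sub_apply] at h2
    exact h2.trans_lt h1
  choose x hx using fun a => cauchySeq_tendsto_of_complete (hco a)
  -- the key estimate
  have key : ∀ ε > 0, ∃ N, ∀ n ≥ N, QV (ε ^ 2) (JH.co (u n) - x) ∧
      ∀ a, ‖JH.co (u n) a - x a‖ ≤ ε := by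
    intro ε hε
    rw [Metric.cauchySeq_iff] at hu
    obtain ⟨N, hN⟩ := hu ε hε
    refine ⟨N, fun n hn => ⟨?_, ?_⟩⟩
    · intro s hs m
      have h1 : Tendsto (fun k => qv (JH.co (u n) - JH.co (u k)) s m) atTop
          (𝓝 (qv (JH.co (u n) - x) s m)) := by
        unfold qv
        apply tendsto_finsetSum
        intro i _
        apply Tendsto.pow
        apply Tendsto.norm
        simp only [Pi.sub_apply]
        exact (tendsto_const_nhds.sub (hx _)).sub (tendsto_const_nhds.sub (hx _))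
      apply le_of_tendsto h1
      filter_upwards [eventually_ge_atTop N] with k hk
      have h2 := (u n - u k).qv_norm s hs m
      rw [map_sub] at h2
      refine h2.trans ?_
      have h3 := hN n hn k hk
      rw [dist_eq_norm] at h3
      exact pow_le_pow_left₀ (norm_nonneg _) h3.le 2
    · intro a
      have h1 : Tendsto (fun k => ‖JH.co (u n) a - JH.co (u k) a‖) atTop
          (𝓝 ‖JH.co (u n) a - x a‖) := (tendsto_const_nhds.sub (hx a)).norm
      apply le_of_tendsto h1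
      filter_upwards [eventually_ge_atTop N] with k hk
      have h2 := (u n - u k).co_le a
      rw [map_sub, Pi.sub_apply] at h2
      have h3 := hN n hn k hk
      rw [dist_eq_norm] at h3
      exact h2.trans h3.le
  have hxmem : x ∈ JSub H := by
    constructor
    · obtain ⟨N, hN⟩ := key 1 one_pos
      obtain ⟨v, hv⟩ := (u N).qv
      have h1 := hv.add ((hN N le_rfl).1.smul (-1))
      have h2 : JH.co (u N) + (-1 : ℝ) • (JH.co (u N) - x) = x := by
        rw [neg_one_smul]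
        abel
      rw [h2] at h1
      exact ⟨_, h1⟩
    · rw [Metric.tendsto_atTop]
      intro ε hε
      obtain ⟨N, hN⟩ := key (ε / 2) (by positivity)
      obtain ⟨M, hM⟩ := Metric.tendsto_atTop.1 (u N).null (ε / 2) (by positivity)
      refine ⟨M, fun a ha => ?_⟩
      have h1 := hM a ha
      have h2 := (hN N le_rfl).2 a
      rw [dist_zero_right] at h1 ⊢
      calc ‖x a‖ = ‖JH.co (u N) a - (JH.co (u N) a - x a)‖ := by rw [sub_sub_cancel]
        _ ≤ ‖JH.co (u N) a‖ + ‖JH.co (u N) a - x a‖ := norm_sub_le _ _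
        _ < ε := by linarith
  refine ⟨JH.mk x hxmem, ?_⟩
  rw [Metric.tendsto_atTop]
  intro ε hε
  obtain ⟨N, hN⟩ := key (ε / 2) (by positivity)
  refine ⟨N, fun n hn => ?_⟩
  rw [dist_eq_norm]
  have h1 : ‖u n - JH.mk x hxmem‖ ≤ ε / 2 := by
    rw [JH.norm_def]
    apply nrm_le (by positivity)
    rw [map_sub, JH.co_mk]
    exact (hN n hn).1
  exact h1.trans_lt (by linarith)

end Pool.Agent.X205.NQR
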