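import Pool.Agent.X205.NQR.Base

/-!
# Adding a coordinatewise weakly null family: the basic estimate
-/

set_option autoImplicit false
set_option linter.unusedSectionVars false

namespace Pool.Agent.X205.NQR

open Filter Topology Finset
open scoped InnerProductSpace

variable {H : Type} [NormedAddCommGroup H] [InnerProductSpace ℝ H]

theorem term_le {D A : ℕ → H} {T a b : ℕ} {η S : ℝ} (hη : 0 ≤ η) (hS0 : 0 ≤ S) (hab : a ≤ b)
    (hS : ∀ a, ‖D a‖ ≤ S) (hA : Bd 1 A)
    (hDA : ∀ a ≤ T, ∀ b ≤ T, |⟪D a, A b⟫_ℝ| ≤ η) :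
    2 * ⟪D b - D a, A b - A a⟫_ℝ ≤ 8 * η * (((min b T : ℕ) : ℝ) - ((min a T : ℕ) : ℝ)) +
      (4 * ‖D (max b T) - D (max a T)‖ ^ 2 + 1 / 4 * ‖A (max b T) - A (max a T)‖ ^ 2) +
      4 * S * ((if T < b then 1 else 0) - (if T < a then 1 else 0)) := by
  have hAab : ‖A b - A a‖ ≤ 1 := by
    have h := hA.2
    exact QV.pair' zero_le_one h hab
  by_cases hb : b ≤ T
  · have ha : a ≤ T := hab.trans hb
    rw [min_eq_left hb, min_eq_left ha, max_eq_right hb, max_eq_right ha, if_neg (by omega),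
      if_neg (by omega)]
    simp only [sub_self, norm_zero, mul_zero, add_zero]
    rcases hab.eq_or_lt with h | h
    · subst h
      simp
    · have h1 : (1 : ℝ) ≤ (b : ℝ) - (a : ℝ) := by
        have : (a : ℝ) + 1 ≤ (b : ℝ) := by exact_mod_cast h
        linarith
      have h2 : ⟪D b - D a, A b - A a⟫_ℝ ≤ 4 * η := by
        rw [inner_sub_left, inner_sub_right, inner_sub_right]
        have e1 := abs_le.1 (hDA b hb b hb)
        have e2 := abs_le.1 (hDA b hb a ha)
        have e3 := abs_le.1 (hDA a ha b hb)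
        have e4 := abs_le.1 (hDA a ha a ha)
        linarith [e1.1, e1.2, e2.1, e2.2, e3.1, e3.2, e4.1, e4.2]
      have h3 : 8 * η * 1 ≤ 8 * η * ((b : ℝ) - (a : ℝ)) :=
        mul_le_mul_of_nonneg_left h1 (by positivity)
      have h4 : (0 : ℝ) ^ 2 = 0 := by norm_num
      rw [h4]
      linarith
  · push Not at hb
    by_cases ha : T < a
    · rw [min_eq_right hb.le, min_eq_right ha.le, max_eq_left hb.le, max_eq_left ha.le, if_pos hb,
        if_pos ha]
      simp only [sub_self, mul_zero, add_zero, zero_add]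
      have h1 := real_inner_le_norm (D b - D a) (A b - A a)
      nlinarith [sq_nonneg (4 * ‖D b - D a‖ - ‖A b - A a‖)]
    · push Not at ha
      rw [min_eq_right hb.le, min_eq_left ha, if_pos hb, if_neg (by omega)]
      have h1 := real_inner_le_norm (D b - D a) (A b - A a)
      have h2 : ‖D b - D a‖ ≤ 2 * S := by
        calc ‖D b - D a‖ ≤ ‖D b‖ + ‖D a‖ := norm_sub_le _ _
          _ ≤ 2 * S := by linarith [hS a, hS b]
      have h3 : ‖D b - D a‖ * ‖A b - A a‖ ≤ 2 * S * 1 :=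
        mul_le_mul h2 hAab (norm_nonneg _) (by positivity)
      have h4 : 0 ≤ 8 * η * ((T : ℝ) - (a : ℝ)) := by
        apply mul_nonneg (by positivity)
        have : (a : ℝ) ≤ (T : ℝ) := by exact_mod_cast ha
        linarith
      have h5 : 0 ≤ 4 * ‖D (max b T) - D (max a T)‖ ^ 2 +
          1 / 4 * ‖A (max b T) - A (max a T)‖ ^ 2 := by positivity
      linarith

theorem step {D : ℕ → H} {v S S2 R : ℝ} {Γ : H} (hv : QV v D) (hS : ∀ a, ‖D a‖ ^ 2 ≤ S2)
    (hS0 : 0 ≤ S) (hSS : S2 ≤ S ^ 2) (hΓ : Tendsto D atTop (𝓝 Γ)) (hR : ‖Γ‖ ≤ R)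
    {A : ℕ → ℕ → H} (hA : ∀ᶠ n in (hyperfilter ℕ : Filter ℕ), Bd 1 (A n)) (hW : WN A) :
    ∀ᶠ n in (hyperfilter ℕ : Filter ℕ), QV (v + 2 + 4 * S) (D + A n) ∧
      ∀ a, ‖(D + A n) a‖ ^ 2 ≤ max (S2 + 2) ((R + 2) ^ 2) := by
  obtain ⟨T₁, hT₁⟩ := hv.tail (δ := 1 / 16) (by norm_num)
  obtain ⟨T₂, hT₂⟩ := eventually_atTop.1 (hΓ.eventually (Metric.ball_mem_nhds Γ one_pos))
  set T := max T₁ T₂ with hT
  set η : ℝ := 1 / (16 * ((T : ℝ) + 1)) with hη
  have hηpos : 0 < η := by positivity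
  have hTη : 8 * η * (T : ℝ) ≤ 1 / 2 := by
    rw [hη]
    have h0 : (0 : ℝ) ≤ T := by positivity
    have h1 : 8 * (1 / (16 * ((T : ℝ) + 1))) * (T : ℝ) = (1 / 2) * ((T : ℝ) / ((T : ℝ) + 1)) := by
      field_simp
      ring
    rw [h1]
    have h2 : (T : ℝ) / ((T : ℝ) + 1) ≤ 1 := by
      rw [div_le_one (by positivity)]
      linarith
    linarith
  have hη1 : η ≤ 1 / 16 := by
    rw [hη]
    apply one_div_le_one_div_of_le (by norm_num)
    have h0 : (0 : ℝ) ≤ T := by positivity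
    linarith
  have hS' : ∀ a, ‖D a‖ ≤ S := fun a => le_of_sq_le_sq ((hS a).trans hSS) hS0
  have hev : ∀ᶠ n in (hyperfilter ℕ : Filter ℕ), ∀ a ∈ range (T + 1), ∀ b ∈ range (T + 1),
      |⟪D a, A n b⟫_ℝ| ≤ η := by
    rw [eventually_all_finset]
    intro a _
    rw [eventually_all_finset]
    intro b _
    have h1 := (hW b (D a)).abs
    rw [abs_zero] at h1
    filter_upwards [h1.eventually (eventually_le_nhds hηpos)] with n hn
    rw [real_inner_comm]
    exact hn
  filter_upwards [hA, hev] with n hn hDA'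
  have hDA : ∀ a ≤ T, ∀ b ≤ T, |⟪D a, A n b⟫_ℝ| ≤ η := fun a ha b hb =>
    hDA' a (mem_range.2 (by omega)) b (mem_range.2 (by omega))
  refine ⟨?_, ?_⟩
  · intro s hs m
    have h1 : qv (D + A n) s m = qv D s m + qv (A n) s m +
        ∑ i ∈ range m, 2 * ⟪D (s (i + 1)) - D (s i), A n (s (i + 1)) - A n (s i)⟫_ℝ := by
      unfold qv
      rw [← sum_add_distrib, ← sum_add_distrib]
      apply sum_congr rfl
      intro i _
      have : (D + A n) (s (i + 1)) - (D + A n) (s i) =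
          (D (s (i + 1)) - D (s i)) + (A n (s (i + 1)) - A n (s i)) := by
        simp only [Pi.add_apply]
        abel
      rw [this, norm_add_sq_real]
      ring
    have h2 : ∑ i ∈ range m, 2 * ⟪D (s (i + 1)) - D (s i), A n (s (i + 1)) - A n (s i)⟫_ℝ ≤
        ∑ i ∈ range m, (8 * η * (((min (s (i + 1)) T : ℕ) : ℝ) - ((min (s i) T : ℕ) : ℝ)) +
          (4 * ‖D (max (s (i + 1)) T) - D (max (s i) T)‖ ^ 2 +
            1 / 4 * ‖A n (max (s (i + 1)) T) - A n (max (s i) T)‖ ^ 2) +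
          4 * S * ((if T < s (i + 1) then 1 else 0) - (if T < s i then 1 else 0))) :=
      sum_le_sum fun i _ => term_le hηpos.le hS0 (hs (Nat.le_succ i)) hS' hn hDA
    generalize (∑ i ∈ range m, 2 * ⟪D (s (i + 1)) - D (s i),
      A n (s (i + 1)) - A n (s i)⟫_ℝ) = X at h1 h2
    rw [sum_add_distrib, sum_add_distrib, ← mul_sum, ← mul_sum, sum_add_distrib, ← mul_sum,
      ← mul_sum, sum_range_sub (fun i => ((min (s i) T : ℕ) : ℝ)),
      sum_range_sub (fun i => (if T < s i then (1 : ℝ) else 0))] at h2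
    have hmono : Monotone fun i => max (s i) T := fun i j hij => max_le_max (hs hij) le_rfl
    have h3 : ∑ i ∈ range m, ‖D (max (s (i + 1)) T) - D (max (s i) T)‖ ^ 2 ≤ 1 / 16 :=
      hT₁ (fun i => max (s i) T) hmono
        ((le_max_left T₁ T₂).trans (le_max_right (s 0) T)) m
    have h4 : ∑ i ∈ range m, ‖A n (max (s (i + 1)) T) - A n (max (s i) T)‖ ^ 2 ≤ 1 ^ 2 :=
      hn.2 (fun i => max (s i) T) hmono m
    have h5 : 8 * η * (((min (s m) T : ℕ) : ℝ) - ((min (s 0) T : ℕ) : ℝ)) ≤ 1 / 2 := by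
      refine le_trans ?_ hTη
      apply mul_le_mul_of_nonneg_left _ (by positivity)
      have e1 : ((min (s m) T : ℕ) : ℝ) ≤ (T : ℝ) := by exact_mod_cast min_le_right _ _
      have e2 : (0 : ℝ) ≤ ((min (s 0) T : ℕ) : ℝ) := by positivity
      linarith
    have h6 : 4 * S * ((if T < s m then (1 : ℝ) else 0) - (if T < s 0 then (1 : ℝ) else 0)) ≤
        4 * S := by
      have e1 : (if T < s m then (1 : ℝ) else 0) ≤ 1 := by split_ifs <;> norm_num
      have e2 : (0 : ℝ) ≤ (if T < s 0 then (1 : ℝ) else 0) := by split_ifs <;> norm_num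
      have e3 : 4 * S * ((if T < s m then (1 : ℝ) else 0) - (if T < s 0 then (1 : ℝ) else 0)) ≤
          4 * S * 1 := mul_le_mul_of_nonneg_left (by linarith) (by positivity)
      linarith
    have h7 := hv s hs m
    have h8 := hn.2 s hs m
    rw [h1]
    linarith
  · intro a
    by_cases ha : a ≤ T
    · apply le_trans _ (le_max_left _ _)
      rw [Pi.add_apply, norm_add_sq_real]
      have e1 := (abs_le.1 (hDA a ha a ha)).2
      have e2 : ‖A n a‖ ^ 2 ≤ 1 := by
        have := hn.1 a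
        nlinarith [norm_nonneg (A n a)]
      linarith [hS a]
    · apply le_trans _ (le_max_right _ _)
      push Not at ha
      have e1 : dist (D a) Γ < 1 := hT₂ a ((le_max_right T₁ T₂).trans ha.le)
      rw [dist_eq_norm] at e1
      have e2 : ‖(D + A n) a‖ ≤ R + 2 := by
        have : (D + A n) a = (D a - Γ) + Γ + A n a := by
          simp only [Pi.add_apply]
          abel
        rw [this]
        calc ‖D a - Γ + Γ + A n a‖ ≤ ‖D a - Γ‖ + ‖Γ‖ + ‖A n a‖ := norm_add₃_le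
          _ ≤ R + 2 := by linarith [hn.1 a]
      exact pow_le_pow_left₀ (norm_nonneg _) e2 2

/-- the same for single vectors -/
theorem step_const {x : H} {v : ℝ} (hv : ‖x‖ ^ 2 ≤ v) {A : ℕ → ℕ → H}
    (hA : ∀ᶠ n in (hyperfilter ℕ : Filter ℕ), Bd 1 (A n)) (hW : WN A) :
    ∀ᶠ n in (hyperfilter ℕ : Filter ℕ), ‖x + A n 0‖ ^ 2 ≤ v + 2 := by
  have h1 := hW 0 x
  filter_upwards [hA, h1.eventually (eventually_le_nhds (show (0 : ℝ) < 1 / 2 by norm_num))]
    with n hn hn2
  rw [norm_add_sq_real, real_inner_comm]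
  have e2 : ‖A n 0‖ ^ 2 ≤ 1 := by
    have := hn.1 0
    nlinarith [norm_nonneg (A n 0)]
  linarith

end Pool.Agent.X205.NQR
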