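import Pool.Agent.X205.NQR.Step

/-!
# Iterated weak limits and the interlacing game
-/

set_option autoImplicit false
set_option linter.unusedSectionVars false

namespace Pool.Agent.X205.NQR

open Filter Topology Finset
open scoped InnerProductSpace

variable {H : Type} [NormedAddCommGroup H] [InnerProductSpace ℝ H]

/-- strictly decreasing lists -/
def Dec (p : List ℕ) : Prop := p.Pairwise (· > ·)

theorem ev_gt (p : List ℕ) : ∀ᶠ n in (hyperfilter ℕ : Filter ℕ), ∀ a ∈ p, a < n := by
  have h1 : ∀ᶠ n in atTop, ∀ a ∈ p, a < n := by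
    refine eventually_atTop.2 ⟨p.sum + 1, fun n hn a ha => ?_⟩
    have := List.single_le_sum (by simp) a ha
    omega
  exact h1.filter_mono Nat.hyperfilter_le_atTop

theorem ev_dec {p : List ℕ} (hp : Dec p) : ∀ᶠ n in (hyperfilter ℕ : Filter ℕ), Dec (n :: p) := by
  filter_upwards [ev_gt p] with n hn
  exact List.pairwise_cons.2 ⟨fun a ha => hn a ha, hp⟩

/-- one weak limit in the largest coordinate -/
noncomputable def L1 (F : List ℕ → ℕ → H) : List ℕ → ℕ → H := fun p a => wl fun n => F (n :: p) a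

/-- `F` is bounded on strictly decreasing lists of length `K` -/
def Bnd (K : ℕ) (B : ℝ) (F : List ℕ → ℕ → H) : Prop := ∀ p, Dec p → p.length = K → Bd B (F p)

/-- changing one coordinate changes `F` by a sequence of size at most `1` -/
def LipK (K : ℕ) (F : List ℕ → ℕ → H) : Prop :=
  ∀ (r : List ℕ) (n n' : ℕ) (p : List ℕ), Dec (r ++ n :: p) → Dec (r ++ n' :: p) →
    (r ++ n :: p).length = K → Bd 1 (F (r ++ n :: p) - F (r ++ n' :: p))

/-- increments are small and coordinatewise weakly null -/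
def IsTree (T : List ℕ → ℕ → H) : Prop :=
  ∀ p, Dec p → (∀ᶠ n in (hyperfilter ℕ : Filter ℕ), Bd 1 (T (n :: p) - T p)) ∧
    WN fun n => T (n :: p) - T p

theorem Bd.zero {c : ℝ} (hc : 0 ≤ c) : Bd c (0 : ℕ → H) := by
  refine ⟨fun a => by simpa using hc, fun s _ m => ?_⟩
  simp only [qv, Pi.zero_apply, sub_self, norm_zero]
  simp
  positivity

theorem Bd.neg {c : ℝ} {D : ℕ → H} (h : Bd c D) : Bd c (-D) := by
  refine ⟨fun a => by simpa using h.1 a, fun s hs m => ?_⟩
  have h1 : qv (-D) s m = qv D s m := by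
    unfold qv
    apply sum_congr rfl
    intro i _
    have : (-D) (s (i + 1)) - (-D) (s i) = -(D (s (i + 1)) - D (s i)) := by
      simp only [Pi.neg_apply]
      abel
    rw [this, norm_neg]
  rw [h1]
  exact h.2 s hs m

theorem Bd.const {c : ℝ} {x : H} (h : ‖x‖ ≤ c) : Bd c (fun _ : ℕ => x) := by
  refine ⟨fun a => h, fun s _ m => ?_⟩
  simp only [qv, sub_self, norm_zero]
  simp
  positivity

variable [CompleteSpace H]

theorem L1_lim {K : ℕ} {B : ℝ} {F : List ℕ → ℕ → H} (hF : Bnd (K + 1) B F) {p : List ℕ}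
    (hp : Dec p) (hK : p.length = K) (a : ℕ) (v : H) :
    Tendsto (fun n => ⟪F (n :: p) a, v⟫_ℝ) (hyperfilter ℕ) (𝓝 ⟪L1 F p a, v⟫_ℝ) := by
  apply wl_spec (B := B)
  filter_upwards [ev_dec hp] with n hn
  exact (hF _ hn (by rw [List.length_cons, hK])).1 a

theorem L1_bnd {K : ℕ} {B : ℝ} (hB : 0 ≤ B) {F : List ℕ → ℕ → H} (hF : Bnd (K + 1) B F) :
    Bnd K B (L1 F) := by
  intro p hp hK
  apply Bd.of_weak (A := fun n => F (n :: p)) hB
  · filter_upwards [ev_dec hp] with n hn
    exact hF _ hn (by rw [List.length_cons, hK])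
  · exact fun a v => L1_lim hF hp hK a v

theorem L1_lip {K : ℕ} {B : ℝ} {F : List ℕ → ℕ → H} (hF : Bnd (K + 1) B F)
    (hL : LipK (K + 1) F) : LipK K (L1 F) := by
  intro r n n' p h1 h2 hK
  have hK' : (r ++ n' :: p).length = K := by
    rw [← hK]
    simp
  apply Bd.of_weak (A := fun t => F (t :: (r ++ n :: p)) - F (t :: (r ++ n' :: p))) zero_le_one
  · filter_upwards [ev_dec h1, ev_dec h2] with t ht1 ht2
    exact hL (t :: r) n n' p ht1 ht2 (by rw [← hK]; simp)
  · intro a v
    simp only [Pi.sub_apply, inner_sub_left]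
    exact (L1_lim hF h1 hK a v).sub (L1_lim hF h2 hK' a v)

theorem L1_diff {K : ℕ} {B : ℝ} {F : List ℕ → ℕ → H} (hF : Bnd (K + 1) B F)
    (hL : LipK (K + 1) F) {p : List ℕ} (hp : Dec p) (hK : p.length = K) :
    (∀ᶠ n in (hyperfilter ℕ : Filter ℕ), Bd 1 (F (n :: p) - L1 F p)) ∧
      WN fun n => F (n :: p) - L1 F p := by
  constructor
  · filter_upwards [ev_dec hp] with n hn
    apply Bd.of_weak (A := fun t => F (n :: p) - F (t :: p)) zero_le_one
    · filter_upwards [ev_dec hp] with t ht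
      exact hL [] n t p hn ht (by simp [hK])
    · intro a v
      simp only [Pi.sub_apply, inner_sub_left]
      exact tendsto_const_nhds.sub (L1_lim hF hp hK a v)
  · intro a v
    simp only [Pi.sub_apply, inner_sub_left]
    have := (L1_lim hF hp hK a v).sub_const ⟪L1 F p a, v⟫_ℝ
    rw [sub_self] at this
    exact this

theorem iter_bnd {B : ℝ} (hB : 0 ≤ B) {K : ℕ} {F : List ℕ → ℕ → H} (hF : Bnd K B F) :
    ∀ j i, i + j = K → Bnd i B (L1^[j] F) := by
  intro j
  induction j with
  | zero =>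
    intro i hi
    obtain rfl : i = K := by omega
    exact hF
  | succ j ih =>
    intro i hi
    rw [Function.iterate_succ_apply']
    exact L1_bnd hB (ih (i + 1) (by omega))

theorem iter_lip {B : ℝ} (hB : 0 ≤ B) {K : ℕ} {F : List ℕ → ℕ → H} (hF : Bnd K B F)
    (hL : LipK K F) : ∀ j i, i + j = K → LipK i (L1^[j] F) := by
  intro j
  induction j with
  | zero =>
    intro i hi
    obtain rfl : i = K := by omega
    exact hL
  | succ j ih =>
    intro i hi
    rw [Function.iterate_succ_apply']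
    exact L1_lip (iter_bnd hB hF j (i + 1) (by omega)) (ih (i + 1) (by omega))

/-- the tree of iterated weak limits of `F` -/
noncomputable def tree (K : ℕ) (F : List ℕ → ℕ → H) (p : List ℕ) : ℕ → H :=
  (L1^[K - p.length] F) (p.drop (p.length - K))

theorem tree_of_le {K : ℕ} (F : List ℕ → ℕ → H) {p : List ℕ} (h : p.length ≤ K) :
    tree K F p = (L1^[K - p.length] F) p := by
  unfold tree
  rw [Nat.sub_eq_zero_of_le h, List.drop_zero]

theorem tree_top {K : ℕ} (F : List ℕ → ℕ → H) {p : List ℕ} (h : p.length = K) :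
    tree K F p = F p := by
  rw [tree_of_le F h.le, h, Nat.sub_self]
  rfl

theorem tree_ge {K : ℕ} (F : List ℕ → ℕ → H) {p : List ℕ} (h : K ≤ p.length) :
    tree K F p = F (p.drop (p.length - K)) := by
  unfold tree
  rw [Nat.sub_eq_zero_of_le h]
  rfl

theorem tree_bd {K : ℕ} {B : ℝ} (hB : 0 ≤ B) {F : List ℕ → ℕ → H} (hF : Bnd K B F) {p : List ℕ}
    (hp : Dec p) : Bd B (tree K F p) := by
  rcases le_total p.length K with h | h
  · rw [tree_of_le F h]
    exact iter_bnd hB hF _ p.length (by omega) p hp rfl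
  · rw [tree_ge F h]
    exact hF _ (List.Pairwise.drop hp) (by rw [List.length_drop]; omega)

theorem tree_isTree {K : ℕ} {B : ℝ} (hB : 0 ≤ B) {F : List ℕ → ℕ → H} (hF : Bnd K B F)
    (hL : LipK K F) : IsTree (tree K F) := by
  intro p hp
  rcases lt_or_ge p.length K with h | h
  · obtain ⟨j, hj⟩ : ∃ j, K = p.length + 1 + j := ⟨K - (p.length + 1), by omega⟩
    have h1 : tree K F p = L1 (L1^[j] F) p := by
      rw [tree_of_le F h.le, ← Function.iterate_succ_apply' L1 j F]
      have : K - p.length = j + 1 := by omega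
      rw [this]
    have h2 : ∀ n, tree K F (n :: p) = (L1^[j] F) (n :: p) := by
      intro n
      rw [tree_of_le F (by rw [List.length_cons]; omega), List.length_cons]
      have : K - (p.length + 1) = j := by omega
      rw [this]
    simp only [h1, h2]
    exact L1_diff (iter_bnd hB hF j (p.length + 1) (by omega))
      (iter_lip hB hF hL j (p.length + 1) (by omega)) hp rfl
  · have h2 : ∀ n, tree K F (n :: p) - tree K F p = 0 := by
      intro n
      rw [tree_ge F h, tree_ge F (by rw [List.length_cons]; omega), List.length_cons]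
      have : p.length + 1 - K = (p.length - K) + 1 := by omega
      rw [this, List.drop_succ_cons, sub_self]
    simp only [h2]
    refine ⟨Eventually.of_forall fun n => Bd.zero zero_le_one, fun a v => ?_⟩
    simp

/-- the limits at infinity -/
noncomputable def G (K : ℕ) (F : List ℕ → ℕ → H) (p : List ℕ) : ℕ → H := fun _ => wl (tree K F p)

theorem G_lim {K : ℕ} {B : ℝ} (hB : 0 ≤ B) {F : List ℕ → ℕ → H} (hF : Bnd K B F) {p : List ℕ}
    (hp : Dec p) (a : ℕ) : Tendsto (tree K F p) atTop (𝓝 (G K F p a)) := by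
  have hbd := tree_bd hB hF hp
  obtain ⟨x, hx⟩ := cauchySeq_tendsto_of_complete hbd.2.cauchy
  have h1 : wl (tree K F p) = x := by
    apply ext_inner_right ℝ
    intro v
    have h2 := wl_spec (B := B) (Eventually.of_forall fun n => hbd.1 n) v (u := tree K F p)
    have h3 : Tendsto (fun n => ⟪tree K F p n, v⟫_ℝ) atTop (𝓝 ⟪x, v⟫_ℝ) :=
      hx.inner tendsto_const_nhds
    exact tendsto_nhds_unique h2 (h3.mono_left Nat.hyperfilter_le_atTop)
  unfold G
  rw [h1]
  exact hx

theorem G_bnd {K : ℕ} {B : ℝ} (hB : 0 ≤ B) {F : List ℕ → ℕ → H} (hF : Bnd K B F) (i : ℕ) :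
    Bnd i B (G K F) := by
  intro p hp _
  apply Bd.const
  exact le_of_tendsto (G_lim hB hF hp 0).norm
    (Eventually.of_forall fun n => (tree_bd hB hF hp).1 n)

theorem G_sub {K : ℕ} {B : ℝ} (hB : 0 ≤ B) {F : List ℕ → ℕ → H} (hF : Bnd K B F) {p q : List ℕ}
    (hp : Dec p) (hq : Dec q) {c : ℝ} (h : ∀ a, ‖(tree K F p - tree K F q) a‖ ≤ c) (a : ℕ) :
    ‖G K F p a - G K F q a‖ ≤ c :=
  le_of_tendsto ((G_lim hB hF hp a).sub (G_lim hB hF hq a)).norm
    (Eventually.of_forall fun n => h n)

theorem G_lip {K : ℕ} {B : ℝ} (hB : 0 ≤ B) {F : List ℕ → ℕ → H} (hF : Bnd K B F)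
    (hL : LipK K F) {i : ℕ} (hi : i ≤ K) : LipK i (G K F) := by
  intro r n n' p h1 h2 hK
  have hK' : (r ++ n' :: p).length = i := by
    rw [← hK]
    simp
  have h3 := iter_lip hB hF hL (K - i) i (by omega) r n n' p h1 h2 hK
  have e1 : tree K F (r ++ n :: p) = (L1^[K - i] F) (r ++ n :: p) := by
    rw [tree_of_le F (by omega), hK]
  have e2 : tree K F (r ++ n' :: p) = (L1^[K - i] F) (r ++ n' :: p) := by
    rw [tree_of_le F (by omega), hK']
  rw [← e1, ← e2] at h3
  exact Bd.const (G_sub hB hF h1 h2 h3.1 0)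

/-- The interlacing game: two interlaced branches along which `F` has small difference. -/
theorem game {K : ℕ} {B : ℝ} (hB : 0 ≤ B) {F : List ℕ → ℕ → H} (hF : Bnd K B F)
    (hL : LipK K F) {κ : ℝ} (hκ : 1 ≤ κ) (hκK : κ ^ 2 = K) : ∀ t, t ≤ K → ∃ p p' : List ℕ,
      Dec p ∧ Dec p' ∧ p.length = t ∧ p'.length = t ∧ (∀ a ∈ p, a ∉ p') ∧
      (∀ i ∈ range (K + 1), ‖tree i (G K F) p 0 - tree i (G K F) p' 0‖ ^ 2 ≤ 4 * t) ∧
      QV (52 * κ * t) (tree K F p - tree K F p') ∧
      ∀ a, ‖(tree K F p - tree K F p') a‖ ^ 2 ≤ (2 * κ + 3) ^ 2 + 4 * t := by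
  intro t
  induction t with
  | zero =>
    intro _
    refine ⟨[], [], List.Pairwise.nil, List.Pairwise.nil, rfl, rfl, by simp, ?_, ?_, ?_⟩
    · intro i _
      simp
    · rw [sub_self]
      have := (Bd.zero (H := H) le_rfl).2
      simpa using this
    · intro a
      rw [sub_self]
      simp
      positivity
  | succ t ih =>
    intro ht
    obtain ⟨p, p', hp, hp', hpt, hpt', hdis, hG, hQ, hS⟩ := ih (by omega)
    have htK : (t : ℝ) + 1 ≤ κ ^ 2 := by
      rw [hκK]
      exact_mod_cast ht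
    have hT := tree_isTree hB hF hL
    have hTi : ∀ i ∈ range (K + 1), IsTree (tree i (G K F)) := fun i hi =>
      tree_isTree hB (G_bnd hB hF i) (G_lip hB hF hL (by have := mem_range.1 hi; omega))
    set D := tree K F p - tree K F p' with hD
    -- the limit at infinity
    have hΓ : Tendsto D atTop (𝓝 (G K F p 0 - G K F p' 0)) :=
      (G_lim hB hF hp 0).sub (G_lim hB hF hp' 0)
    have hΓR : ‖G K F p 0 - G K F p' 0‖ ≤ 2 * κ := by
      have h1 := hG t (mem_range.2 (by omega))
      rw [tree_top _ hpt, tree_top _ hpt'] at h1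
      apply le_of_sq_le_sq _ (by linarith)
      nlinarith
    -- first half step
    have hS2 : (2 * κ + 3) ^ 2 + 4 * (t : ℝ) ≤ (6 * κ) ^ 2 := by nlinarith
    have e1 := step hQ hS (S := 6 * κ) (by linarith) hS2 hΓ hΓR (hT p hp).1 (hT p hp).2
    have e2 : ∀ᶠ n in (hyperfilter ℕ : Filter ℕ), ∀ i ∈ range (K + 1),
        ‖tree i (G K F) (n :: p) 0 - tree i (G K F) p' 0‖ ^ 2 ≤ 4 * t + 2 := by
      rw [eventually_all_finset]
      intro i hi
      filter_upwards [step_const (hG i hi) (hTi i hi p hp).1 (hTi i hi p hp).2] with n hn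
      have : tree i (G K F) (n :: p) 0 - tree i (G K F) p' 0 =
          tree i (G K F) p 0 - tree i (G K F) p' 0 +
          (tree i (G K F) (n :: p) - tree i (G K F) p) 0 := by
        simp only [Pi.sub_apply]
        abel
      rw [this]
      exact hn
    obtain ⟨n, ⟨hQ1, hS1⟩, hG1, hdn, hnp', hAn⟩ :=
      (e1.and (e2.and ((ev_dec hp).and ((ev_gt p').and (hT p hp).1)))).exists
    have hnp : n ∉ p' := fun h => lt_irrefl _ (hnp' n h)
    have hD1 : D + (tree K F (n :: p) - tree K F p) = tree K F (n :: p) - tree K F p' := by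
      rw [hD]
      abel
    rw [hD1] at hQ1 hS1
    set D1 := tree K F (n :: p) - tree K F p' with hD1'
    have hΓ1 : Tendsto D1 atTop (𝓝 (G K F (n :: p) 0 - G K F p' 0)) :=
      (G_lim hB hF hdn 0).sub (G_lim hB hF hp' 0)
    have hΓR1 : ‖G K F (n :: p) 0 - G K F p' 0‖ ≤ 2 * κ + 1 := by
      have h1 := G_sub hB hF hdn hp hAn.1 0
      have : G K F (n :: p) 0 - G K F p' 0 =
        (G K F p 0 - G K F p' 0) + (G K F (n :: p) 0 - G K F p 0) := by abel
      rw [this]
      exact (norm_add_le _ _).trans (by linarith)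
    have hS1' : ∀ a, ‖D1 a‖ ^ 2 ≤ (2 * κ + 3) ^ 2 + 4 * (t : ℝ) + 2 := by
      intro a
      refine (hS1 a).trans (max_le le_rfl ?_)
      have : (0 : ℝ) ≤ t := by positivity
      nlinarith
    have hS21 : (2 * κ + 3) ^ 2 + 4 * (t : ℝ) + 2 ≤ (6 * κ) ^ 2 := by nlinarith
    -- second half step
    have hneg : ∀ T : List ℕ → ℕ → H, IsTree T →
        (∀ᶠ m in (hyperfilter ℕ : Filter ℕ), Bd 1 (-(T (m :: p') - T p'))) ∧
        WN fun m => -(T (m :: p') - T p') := by
      intro T hT'
      refine ⟨(hT' p' hp').1.mono fun m hm => hm.neg, fun a v => ?_⟩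
      have := ((hT' p' hp').2 a v).neg
      simp only [neg_zero] at this
      simp only [Pi.neg_apply, inner_neg_left]
      exact this
    have f1 := step hQ1 hS1' (S := 6 * κ) (by linarith) hS21 hΓ1 hΓR1 (hneg _ hT).1 (hneg _ hT).2
    have f2 : ∀ᶠ m in (hyperfilter ℕ : Filter ℕ), ∀ i ∈ range (K + 1),
        ‖tree i (G K F) (n :: p) 0 - tree i (G K F) (m :: p') 0‖ ^ 2 ≤ 4 * t + 2 + 2 := by
      rw [eventually_all_finset]
      intro i hi
      filter_upwards [step_const (hG1 i hi) (hneg _ (hTi i hi)).1 (hneg _ (hTi i hi)).2] with m hm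
      have : tree i (G K F) (n :: p) 0 - tree i (G K F) (m :: p') 0 =
          tree i (G K F) (n :: p) 0 - tree i (G K F) p' 0 +
          (-(tree i (G K F) (m :: p') - tree i (G K F) p')) 0 := by
        simp only [Pi.sub_apply, Pi.neg_apply]
        abel
      rw [this]
      exact hm
    obtain ⟨m, ⟨hQ2, hS2'⟩, hG2, hdm, hmp⟩ :=
      (f1.and (f2.and ((ev_dec hp').and (ev_gt (n :: p))))).exists
    have hD2 : D1 + -(tree K F (m :: p') - tree K F p') =
        tree K F (n :: p) - tree K F (m :: p') := by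
      rw [hD1']
      abel
    rw [hD2] at hQ2 hS2'
    refine ⟨n :: p, m :: p', hdn, hdm, by simp [hpt], by simp [hpt'], ?_, ?_, ?_, ?_⟩
    · intro a ha ha'
      rcases List.mem_cons.1 ha' with h | h
      · subst h
        exact lt_irrefl _ (hmp a ha)
      · rcases List.mem_cons.1 ha with h' | h'
        · subst h'
          exact hnp h
        · exact hdis a h' h
    · intro i hi
      refine (hG2 i hi).trans ?_
      push_cast
      linarith
    · apply hQ2.mono
      push_cast
      nlinarith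
    · intro a
      refine (hS2' a).trans (max_le ?_ ?_)
      · push_cast
        linarith
      · have : (0 : ℝ) ≤ t := by positivity
        push_cast
        nlinarith

end Pool.Agent.X205.NQR
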